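import Pool.Agent.Helper17.KL.Can
import Pool.Agent.Helper87.NSL.Inv
import Pool.Agent.Helper47.FN.Hull
import Pool.Agent.Helper36.AM.St
import Pool.Agent.Helper26.OUT.Mk
import Pool.Agent.Helper8.KL.Kl
import Pool.Agent.Helper89.RAK.Dmz
import Pool.Agent.Helper80.SUB.Def
import Pool.Agent.Helper7.RD.Kv
import Pool.Agent.Helper18.PRM.Crd
import Pool.Agent.Helper24.PR.Ovl

/-! MAX IN ALL DIMENSIONS, version 2.7 (ns_notes_8d, 17c; decisions v3 of helper94 (32435), consolidation of helper2 (32547),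
fields of helper3, 8, 47, 75, 58, 33, 7): definitions and the joints.

PAIRS `(s, R)`: `s` a system of leaves, `R` a RESOLUTION (a literal partition of every space; the coordinates of the
point are literal functions of `R` and of the base). K-LABELS: labels whose leak at `R` is EXACTLY zero (fresh kernels
from the class of `R` and the base), and which have no leak at the windows of the types. For the finest resolution
`R = ⊥` these are the TYPE-LABELS: labels without leak at the windows of the types. -/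

set_option autoImplicit false

namespace Pool.Agent.Helper29.MX

open Finset Filter Topology Matrix Pool.Agent.Helper69.RK Pool.Agent.Helper31.EC Pool.Agent.Helper31.EC.Sp
open Pool.Agent.Helper40.EL Pool.Agent.Helper89.LX Pool.Agent.Helper84.MT
open Pool.Agent.Helper49.MD Pool.Agent.Helper36.AM
open Pool.Agent.Helper47.FN (KR lftR obR)
open Pool.Agent.Helper87.NSL (cndR KnS)
open Pool.Agent.Helper3.LF (Mon)
open Pool.Agent.Helper38.NSL (NI)
open Pool.Agent.Helper80.SUB (SubCl)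
open Pool.Agent.Helper7.RD (RW volC volCO)
open Pool.Agent.Helper18.PRM (vcrd scrd)

noncomputable section

variable {S T : Sp} {M : ℕ} {E : ℕ → ℕ} {ι : Type}

/-! ### resolutions, K-labels, type-labels -/

/-- a RESOLUTION -/
abbrev Rsl (S : Sp) : Type := ∀ k, Setoid (S.F k).Ω

/-- the finest resolution -/
@[instance_reducible] def rbot (S : Sp) : Rsl S := fun _ => ⊥

/-- the resolution of an extension -/
@[instance_reducible] def rpull (p : Pj T S) (R : Rsl S) : Rsl T := fun k => Setoid.comap (p.π k) (R k)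

/-- the resolution over a label -/
@[instance_reducible] def rover (l : Lab S) (e : ℝ) (he : 0 < e) (R : Rsl S) : Rsl (l.ovr e he) :=
  fun k => (Setoid.comap (l k).p.π (R k) : Setoid (l k).T.Ω)

/-- the VISIBLE resolution: the cells of level 1 of the point -/
@[instance_reducible] def vis (Q : S.VV M) : Rsl S := fun k => Setoid.ker (Q.cellv 1 k)

/-- `R` RESOLVES THE POINT: the point is a literal function of `R` (and of the base) -/
def Pt (s : MSys S M E ι) (R : Rsl S) : Prop := KnS R s.Q.v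

/-- LITERAL systems: the point is a literal function of its cell of level 1 (and of the base) -/
def Lt (s : MSys S M E ι) : Prop := Pt s (vis s.Q)

/-- the system with the point rounded to the cell of level 1 -/
def rd (s : MSys S M E ι) : MSys S M E ι := ⟨Pool.Agent.Helper89.RAK.rnd s.Q, fun i => (s.lf i).congrQ ⟨fun _ => 1,
  S.Sub_const zero_le_one, Eventually.of_forall fun k ω _ i => by
    rw [one_mul]
    exact Pool.Agent.Helper89.RAK.rnd_close s.Q k ω i⟩⟩

/-- the class of the exact kernels from `R` -/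
abbrev KZ (R : Rsl S) : LC S := LC.kz fun k => fc (R k)

/-- K-LABELS of the window `c` -/
def KLb (s : MSys S M E ι) (R : Rsl S) (c : ℝ) (l : Lab S) : Prop := l.DMf (cndR s R c) ∧ (KZ R).ev l

/-- TYPE-LABELS of the window `c`: no leak at the windows of the types -/
def TLb (s : MSys S M E ι) (c : ℝ) (l : Lab S) : Prop := ∀ i, Nul S fun k => (l k).leak ((s.lf i).win c k)

/-- admissible forms over K-labels -/
def KAd (s : MSys S M E ι) (R : Rsl S) (D : ℕ) (c : ℝ) (x : ∀ k, FD (S.F k) (Mon M D)) : Prop :=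
  (gaq s.Q D).AdfK (KZ R) (cndR s R c) x

/-- optimal forms over K-labels -/
def KOp (s : MSys S M E ι) (R : Rsl S) (D : ℕ) (c : ℝ) (x : ∀ k, FD (S.F k) (Mon M D)) : Prop :=
  (gaq s.Q D).OptfK (KZ R) (cndR s R c) x

/-- volume of the K-hull of the window `c`, degree `D` (`= volC` of helper7, `MX/Bas`) -/
def volK (s : MSys S M E ι) (R : Rsl S) (D : ℕ) (c : ℝ) : ℝ :=
  sInf {v | ∃ x : ∀ k, FD (S.F k) (Mon M D), KAd s R D c x ∧ v = vol s.Q D x}

/-- volume of the K-hull of the window `c`, all degrees (`= volCO` of helper7, `MX/Bas`) -/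
def volKO (s : MSys S M E ι) (R : Rsl S) (c : ℝ) : ℝ := ⨅ D : ℕ, volK s R D c

/-- the first `j` coordinates of a point -/
abbrev pfx (Q : S.VV M) {j : ℕ} (hj : j ≤ M) : S.VV j := vcrd (Fin.castLE hj) Q

/-- volume of the K-hull of the first `j` coordinates, window `c`, all degrees (K-labels of the system) -/
def volP (s : MSys S M E ι) (R : Rsl S) (c : ℝ) {j : ℕ} (hj : j ≤ M) : ℝ := volCO (KZ R) (cndR s R c) (pfx s.Q hj)

/-- the least entropy of the point over K-labels of the window `c` -/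
def HK (s : MSys S M E ι) (R : Rsl S) (c : ℝ) : ℝ := sInf {v | ∃ l : Lab S, KLb s R c l ∧ v = H (up1 l (s.Q.dg 1))}

/-! ### robust properties: on all events of all extensions -/

/-- the property `P` holds on all events of all extensions -/
def AllE (P : ∀ S : Sp, MSys S M E ι → Rsl S → Prop) (S : Sp) (s : MSys S M E ι) (R : Rsl S) : Prop :=
  ∀ (T : Sp) (p : Pj T S) (A : ∀ k, (T.F k).Ω → Prop) (hA : 0 < ul (T.pr A)), P (Sp.im p A) (s.im p A hA) R

/-- STABLE up to `ε`: the K-hulls of the window `0` are trivial up to `ε` on all events -/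
def Stb (ε : ℝ) (s : MSys S M E ι) (R : Rsl S) : Prop := AllE (fun _ t R' => (M : ℝ) - ε ≤ volKO t R' 0) S s R

/-- DEFICIENT at the level `b`, on all events -/
def Dfc (b : ℝ) (s : MSys S M E ι) : Prop := ∀ (T : Sp) (p : Pj T S) (A : ∀ k, (T.F k).Ω → Prop)
  (hA : 0 < ul (T.pr A)), H ((s.im p A hA).Q.dg b) < M * b

/-- the type `j` has at least `v` UNIT DIRECTIONS, on all events: digits of the point over the windows -/
def Ud (v : ℕ) (s : MSys S M E ι) (j : ι) : Prop := ∀ (T : Sp) (p : Pj T S) (A : ∀ k, (T.F k).Ω → Prop)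
  (hA : 0 < ul (T.pr A)) (c c' : ℝ), 0 ≤ c → c ≤ c' → c' ≤ 1 →
    (v : ℝ) * (c' - c) ≤ ul (fun k => h (fc (Setoid.ker ((s.im p A hA).Q.cellv c' k)))
      (((s.im p A hA).lf j).win c k) / ((Sp.im p A).F k).n)

/-- INV(v): every type has at least `v` unit directions (and there is a type) -/
def Inv (v : ℕ) (s : MSys S M E ι) : Prop := Nonempty ι ∧ ∀ i, Ud v s i

/-- a TRANSVERSAL PAIR of types: two types whose windows are independent given `R`; then all type-labels have no leak at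
`R` -/
def Trp (s : MSys S M E ι) (R : Rsl S) : Prop := ∃ i j, NI ((s.lf i).win 1) ((s.lf j).win 1) (fun k => fc (R k))

/-! ### classes -/

/-- classes of pairs -/
def KCl (M : ℕ) : Type 1 := ∀ (S : Sp) (g r : ℕ), MSys S M (lin g) (Fin r) → Rsl S → Prop

/-- the systems of the class `A` with INV(v) -/
def Cv (A : MCl M) (v : ℕ) : MCl M := fun S g r s => A S g r s ∧ Inv v s

/-- the pairs `(s, R)`, `s` of the class `C` with INV(v) -/
def CvK (C : MCl M) (v : ℕ) : KCl M := fun S g r s R => C S g r s ∧ Pt s R ∧ Inv v s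

/-- STRUCTURE THEOREM for a class of pairs -/
def STOK (M : ℕ) (C : KCl M) : Prop := ∀ (S : Sp) (g r : ℕ) (s : MSys S M (lin g) (Fin r)) (R : Rsl S),
  C S g r s R → volKO s R 0 ≤ HK s R 0

/-- the same leaves, the points differ by the finest resolution -/
def Nrq (s s' : MSys S M E ι) : Prop := (∀ i, ∀ᶠ k in UF, lob (s'.lf i) k = lob (s.lf i) k) ∧
  ∃ K : ℕ → ℝ, S.Sub K ∧ ∀ᶠ k in UF, ∀ ω, (S.F k).μ ω ≠ 0 → ∀ j, |s'.Q.v k ω j - s.Q.v k ω j| ≤ K k * S.dl 1 k

/-- CLOSURE PROPERTIES of an ordinary class -/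
structure OkA (N : ℕ) (A : MCl N) : Prop where
  im : ∀ S g r s, A S g r s → ∀ (T : Sp) (p : Pj T S) (E : ∀ k, (T.F k).Ω → Prop) (hE : 0 < ul (T.pr E)),
    A (Sp.im p E) g r (s.im p E hE)
  trn : ∀ S g r s, A S g r s → ∀ (e : ℝ) (he : 0 < e) (h1 : e ≤ 1), A (S.chg S.tr e he) g r (s.trn e he h1)
  /-- changes of the point by the finest resolution -/
  pnt : ∀ S g r s s', A S g r s → Nrq s s' → A S g r s'
  /-- more types, on extensions -/
  add : ∀ S g r s, A S g r s → ∀ (T : Sp) (p : Pj T S) (g' r' : ℕ) (hg : ∀ D, lin g D ≤ lin g' D)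
    (L : Fin r' → Leaf T (p.vv s.Q) (lin g')) (f : Fin r → Fin r'), (∀ i, L (f i) = ((s.lf i).pull p).monoE hg) →
      A T g' r' ⟨p.vv s.Q, L⟩
  /-- auxiliary systems (helper80) -/
  sub : SubCl A
  /-- base change over ordinary labels of the window `0` -/
  bas : ∀ S g r s, A S g r s → ∀ (l : Lab S) (hl : s.DMc 0 l),
    A (l.ovr 1 one_pos) g r (Pool.Agent.Helper24.PR.ovl s l fun i => hl (some i))

/-- the rows of the deep zoom `z` (helper7) are a FLAG with the exponents `lam`: the row `j` contains only the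
coordinates `0, .., j`, and typically `|∂_j p_j| = 2 ^ (lam j n + o(n))` -/
structure Flg {s : MSys S M E ι} (z : RW s M) (lam : Fin M → ℝ) : Prop where
  tri : ∀ k ω j, ∀ i ∈ (z.R.p k ω j).vars, i ≤ j
  ex : ∀ e : ℝ, 0 < e → Typ (S := z.Z.l.sp) (fun k (ω : (z.Z.l k).T.Ω) => ∀ j,
    2 ^ ((lam j - e) * (S.F k).n) ≤ |MvPolynomial.eval (s.Q.v k ((z.Z.l k).p.π ω)) (MvPolynomial.pderiv j (z.R.p k ω j))| ∧
    |MvPolynomial.eval (s.Q.v k ((z.Z.l k).p.π ω)) (MvPolynomial.pderiv j (z.R.p k ω j))| ≤ 2 ^ ((lam j + e) * (S.F k).n))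

/-- the rows are tame at the distance `2 ^ (- a n)` of the point -/
def Tam {s : MSys S M E ι} (z : RW s M) (a : ℝ) : Prop := ∀ L : ℕ → ℝ, S.Sub L → ∃ K : ℕ → ℝ, S.Sub K ∧
  Typ (S := z.Z.l.sp) (fun k (ω : (z.Z.l k).T.Ω) => ∀ y : Fin M → ℝ,
    (∀ i, |y i - s.Q.v k ((z.Z.l k).p.π ω) i| ≤ L k * S.dl a k) → ∀ j, |MvPolynomial.eval y (z.R.p k ω j)| ≤ K k)

/-- the exponents `lam` are the exponents of the optimal flag of the K-labels of the window `z.c` (or of the truncation of
the system at a level `a`; then the rows are tame at the distance `2 ^ (- a n)`) -/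
def OptLam {s : MSys S M E ι} (z : RW s M) (R : Rsl S) (lam : Fin M → ℝ) : Prop :=
  (∀ j : Fin M, lam j = 1 - (volP s R z.Z.c (Nat.succ_le_of_lt j.2) - volP s R z.Z.c j.2.le)) ∨
    ∃ (a : ℝ) (h0 : 0 < a) (h1 : a ≤ 1), z.Z.c ≤ a ∧ a + z.Z.u ≤ 1 ∧ Tam z a ∧ ∀ j : Fin M, lam j = a * (1 -
      (volP (s.trn a h0 h1) R (z.Z.c / a) (Nat.succ_le_of_lt j.2) - volP (s.trn a h0 h1) R (z.Z.c / a) j.2.le))

/-- CLOSURE PROPERTIES of the classes of the selection: `A` ordinary class, `C m` classes of systems (`m` is a bound,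
which is constant along the selection). There is no resolution in `C m`: in the instances there is a resolution for
which the system has a transversal pair of types, so all type-labels (and all K-labels of all resolutions) have no leak
at it. -/
structure Okc (N : ℕ) (A : MCl N) (C : ℕ → MCl N) : Prop where
  oA : OkA N A
  le : ∀ m S g r s, C m S g r s → A S g r s
  im : ∀ m S g r s, C m S g r s → ∀ (T : Sp) (p : Pj T S) (E : ∀ k, (T.F k).Ω → Prop) (hE : 0 < ul (T.pr E)),
    C m (Sp.im p E) g r (s.im p E hE)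
  dg : ∀ m g r, DiagCl (lft fun S (s : MSys S N (lin g) (Fin r)) => C m S g r s)
  trn : ∀ m S g r s, C m S g r s → ∀ (e : ℝ) (he : 0 < e) (h1 : e ≤ 1), C m (S.chg S.tr e he) g r (s.trn e he h1)
  /-- changes of the point by the finest resolution -/
  pnt : ∀ m S g r s s', C m S g r s → Nrq s s' → C m S g r s'
  /-- more types, on extensions -/
  add : ∀ m S g r s, C m S g r s → ∀ (T : Sp) (p : Pj T S) (g' r' : ℕ) (hg : ∀ D, lin g D ≤ lin g' D)
    (L : Fin r' → Leaf T (p.vv s.Q) (lin g')) (f : Fin r → Fin r'), (∀ i, L (f i) = ((s.lf i).pull p).monoE hg) →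
      C m T g' r' ⟨p.vv s.Q, L⟩
  /-- base change over any type-label of the window `0` (helper3) -/
  bas : ∀ m S g r s, C m S g r s → ∀ (l : Lab S) (hl : ∀ i, Nul S fun k => (l k).leak ((s.lf i).win 0 k)),
    C m (l.ovr 1 one_pos) g r (Pool.Agent.Helper24.PR.ovl s l hl)
  /-- zooms in flag rows over literal K-labels of any resolution, with optimal exponents; another flag over a finer
  literal label is allowed (helper75), finer by `o(n)` bits (the visibility HER is relative to the least labels) -/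
  zoom : ∀ m g r D0, ∃ D1 : ℕ, ∀ S (s : MSys S N (lin g) (Fin r)), C m S g r s → ∀ R : Rsl S, Pt s R → ∀ (z : RW s N)
    (lam : Fin N → ℝ) (W : Rsl S), z.D ≤ D0 → z.Z.l = Lab.ofZ W → KLb s R z.Z.c z.Z.l → Flg z lam → OptLam z R lam →
      ∃ (z' : RW s N) (W' : Rsl S), z'.Z.l = Lab.ofZ W' ∧ (∀ᶠ k in UF, W' k ≤ W k) ∧
        Nul S (fun k => h (fc (W' k)) (fc (W k))) ∧ z'.Z.c = z.Z.c ∧ z'.Z.u = z.Z.u ∧ z'.κ = z.κ ∧
        KLb s R z.Z.c z'.Z.l ∧ Flg z' lam ∧ C m z'.Z.sp z'.κ r z'.sys ∧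
          (Pt z.sys (rover z.Z.l z.Z.u z.Z.hu R) → Pt z'.sys (rover z'.Z.l z'.Z.u z'.Z.hu R)) ∧ z'.D ≤ D1 ∧
            (∀ a : ℝ, z.Z.c ≤ a → (∀ j, lam j ≤ a) → Tam z a → Tam z' a)

/-- CLOSURE PROPERTIES of a class `C` inside an ordinary class `A`: what is needed for limits (NSL) -/
structure Ocl (N : ℕ) (A C : MCl N) : Prop where
  le : ∀ S g r s, C S g r s → A S g r s
  im : ∀ S g r s, C S g r s → ∀ (T : Sp) (p : Pj T S) (E : ∀ k, (T.F k).Ω → Prop) (hE : 0 < ul (T.pr E)),
    C (Sp.im p E) g r (s.im p E hE)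
  pull : ∀ S g r s, C S g r s → ∀ (T : Sp) (p : Pj T S), C T g r (s.pull p)
  trn : ∀ S g r s, C S g r s → ∀ (e : ℝ) (he : 0 < e) (h1 : e ≤ 1), C (S.chg S.tr e he) g r (s.trn e he h1)
  dg : ∀ g r, DiagCl (lft fun S (s : MSys S N (lin g) (Fin r)) => C S g r s)

/-- ENTRY of the classes of the selection: systems with a literal point and a transversal pair of types for the cells of
the point (for instance a copy of a type given the cells of the point and the base) -/
def Ent {N : ℕ} (A : MCl N) (C : ℕ → MCl N) : Prop :=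
  ∀ S g r s, A S g r s → Lt s → Trp s (vis s.Q) → ∃ m, C m S g r s

/-- the same point, labels and parameters; the charts are polynomials of bounded degree with tame coefficients which
differ by the finest resolution (helper7: terms of the charts of size `2 ^ (- n)` may be dropped) -/
def Tay {E' : ℕ → ℕ} (s : MSys S M E ι) (s' : MSys S M E' ι) : Prop := s'.Q = s.Q ∧ ∀ i,
  ∃ (h : (s'.lf i).e = (s.lf i).e) (κ : ℕ) (G G' : ∀ k, (S.F k).Ω → Fin M → MvPolynomial (Fin (s.lf i).e) ℝ)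
    (K : ℕ → ℝ), S.Sub K ∧ (∀ k, (s'.lf i).La k = (s.lf i).La k) ∧
    (∀ k ω m, (s'.lf i).Y.v k ω (Fin.cast h.symm m) = (s.lf i).Y.v k ω m) ∧
    (∀ k ω j, (G k ω j).totalDegree ≤ κ ∧ (G' k ω j).totalDegree ≤ κ) ∧
    Typ (S := S) (fun k ω => ∀ j, (∀ y, (s.lf i).F k ω y j = MvPolynomial.eval y (G k ω j) ∧
      (s'.lf i).F k ω (fun m => y (Fin.cast h m)) j = MvPolynomial.eval y (G' k ω j)) ∧
        ∀ a, |(G k ω j).coeff a| ≤ K k ∧ |(G' k ω j).coeff a - (G k ω j).coeff a| ≤ K k * S.dl 1 k)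

/-- CLOSURE PROPERTIES of the classes `D w m` (systems in the coordinates of frames, weights `w`), output class `B`,
ordinary class `A` -/
structure Okd (N : ℕ) (A : MCl N) (C : ℕ → MCl N) (B : MCl N) (D : (Fin N → ℝ) → ℕ → MCl N) : Prop where
  le : ∀ w m S g r s, D w m S g r s → B S g r s
  im : ∀ w m S g r s, D w m S g r s → ∀ (T : Sp) (p : Pj T S) (E : ∀ k, (T.F k).Ω → Prop) (hE : 0 < ul (T.pr E)),
    D w m (Sp.im p E) g r (s.im p E hE)
  dg : ∀ w m g r, DiagCl (lft fun S (s : MSys S N (lin g) (Fin r)) => D w m S g r s)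
  trn : ∀ w m S g r s, D w m S g r s → ∀ (e : ℝ) (he : 0 < e) (h1 : e ≤ 1),
    D w m (S.chg S.tr e he) g r (s.trn e he h1)
  /-- all zooms over all type-labels in reduced frames with exponents `w j * c` (`c = 0`: base change), for systems in
  which the hulls of the type-labels of the window `0` are trivial -/
  zoom : ∀ w m, Monotone w → (∀ j, 1 ≤ w j) → ∀ S g r (s : MSys S N (lin g) (Fin r)), D w m S g r s →
    Stb 0 s (rbot S) → ∀ (c e : ℝ) (he : 0 < e), 0 ≤ c → (∀ j, w j * c + e ≤ 1) → ∀ (l : Lab S)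
      (f : Frm s.Q l fun j => w j * c), TLb s c l → ∀ (g' : ℕ) (t : MSys (l.ovr e he) N (lin g') (Fin r)),
        Gzf s l f c e he t → D w m (l.ovr e he) g' r t
  /-- terms of the charts of the size of the finest resolution may be dropped (helper7, weighted degrees) -/
  tay : ∀ w m S g r (s : MSys S N (lin g) (Fin r)), D w m S g r s → ∀ (g' : ℕ) (s' : MSys S N (lin g') (Fin r)),
    Tay s s' → D w m S g' r s'
  /-- limits (40, 47, 21, 58): the stable systems of `D w m` are systems of a class `D' w m` inside an ordinary class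
  `A'` which inherits the structure theorem from `A` -/
  aux : ∃ (A' : MCl N) (D' : (Fin N → ℝ) → ℕ → MCl N), OkA N A' ∧ (∀ w m, Ocl N A' (D' w m)) ∧
    (∀ w m S g r s, D' w m S g r s → D w m S g r s) ∧
    (∀ w m S g r s, D w m S g r s → Stb 0 s (rbot S) → D' w m S g r s) ∧
    ∀ v, STO N (Cv A v) → STO N (Cv A' v)
  /-- ENTRY: coordinates in the order of the weights; the coordinate `0` is the first one if it has weight one (the
  exponent of the prefix `x_0` over the type-labels is the weight of `x_0`) -/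
  prm : ∀ (w : Fin N → ℝ) m S g r (s : MSys S N (lin g) (Fin r)) (σ : Equiv.Perm (Fin N)), C m S g r s →
    Stb 0 s (rbot S) → Monotone w → (∀ j, 1 ≤ w j) → (∃ (c : ℝ) (l : Lab S) (_ : Frm (vcrd σ s.Q) l fun j => w j * c),
      0 < c ∧ (∀ j, w j * c < 1) ∧ TLb s c l ∧
        ∀ j : Fin N, (j : ℕ) = 0 → w (σ.symm j) * c = 1 - volP s (rbot S) c (Nat.succ_le_of_lt j.2)) →
    (∀ j : Fin N, (j : ℕ) = 0 → w (σ.symm j) = 1 → σ j = j) → D w m S g r (scrd σ s)

/-- HOMOGENEOUS CLASS of systems for the type-labels (helper47): output of the selection -/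
structure YC (M : ℕ) (B : MCl (M + 1)) (g r : ℕ) (w : Fin (M + 1) → ℝ)
    (Y : ∀ S : Sp, MSys S (M + 1) (lin g) (Fin r) → Prop) : Prop where
  cl : ∀ S s, Y S s → B S g r s
  ne : ∃ S s, Y S s
  im : ∀ S s, Y S s → ∀ (T : Sp) (p : Pj T S) (A : ∀ k, (T.F k).Ω → Prop) (hA : 0 < ul (T.pr A)),
    Y (Sp.im p A) (s.im p A hA)
  dg : DiagCl (lft Y)
  trn : ∀ S s, Y S s → ∀ (e : ℝ) (he : 0 < e) (h1 : e ≤ 1), Y (S.chg S.tr e he) (s.trn e he h1)
  mono : Monotone w
  one : w 0 = 1
  wd : ∀ S s, Y S s → Pool.Agent.Helper26.OUT.WDs w s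
  /-- type-labels of the window `c` have at most the exponents `w j * c` -/
  typ : ∀ S s, Y S s → ∀ c : ℝ, 0 ≤ c → w (Fin.last M) * c < 1 → ∀ (D : ℕ) (x : ∀ k, FD (S.F k) (Mon (M + 1) D)),
    (gaq s.Q D).Adf (fun i => (s.lf i).win c) x → (M : ℝ) + 1 - ∑ j, w j * c ≤ vol s.Q D x
  /-- and these exponents are attained, by visible labels -/
  box : ∀ S s, Y S s → ∀ c : ℝ, 0 < c → w (Fin.last M) * c < 1 → ∃ (l : Lab S) (_ : Frm s.Q l (fun j => w j * c)),
    s.DMc c l
  /-- zooms over all type-labels and all frames (`c = 0`: base change and new unit) -/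
  zoom : ∀ S s, Y S s → ∀ c : ℝ, 0 ≤ c → w (Fin.last M) * c < 1 → ∀ (l : Lab S) (f : Frm s.Q l (fun j => w j * c)),
    TLb s c l → ∀ (e : ℝ) (he : 0 < e), w (Fin.last M) * c + e ≤ 1 →
      ∃ t : MSys (l.ovr e he) (M + 1) (lin g) (Fin r), Gzf s l f c e he t ∧ Y _ t
  /-- the deficit -/
  dfc : ∀ S s, Y S s → H (s.Q.dg 1) < M + 1

/-! ### the statements -/

/-- NSL (40, 94, 87): limits of stable pairs which are deficient at all levels (on all events) are stable -/
def NSL (N : ℕ) : Prop := ∀ (A C : MCl N), OkA N A → Ocl N A C → (∀ m, m < N → STu m) → ∀ v : ℕ,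
  STO N (Cv A (v + 1)) → ∀ (g r : ℕ) (ε : ℕ → ℝ), (∀ j, 0 ≤ ε j) → Tendsto ε atTop (𝓝 0) →
    DiagTo (fun j => lftR fun S (s : MSys S N (lin g) (Fin r)) R => CvK C v S g r s R ∧ Stb (ε j) s R)
      (lftR fun S (s : MSys S N (lin g) (Fin r)) R => CvK C v S g r s R ∧
        ((∀ b : ℝ, 0 < b → b ≤ 1 → Dfc b s) → Stb 0 s R))

/-- ST^K from ST (doubling, helper3) -/
def STKP (N : ℕ) : Prop := ∀ (A : MCl N) (C : ℕ → MCl N), Okc N A C → (∀ m, m < N → STu m) → ∀ v : ℕ,
  STO N (Cv A v) → ∀ m, STOK N (CvK (C m) v)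

/-- the same for an ordinary class, visible K-labels -/
def STVP (N : ℕ) : Prop := ∀ A : MCl N, OkA N A → (∀ m, m < N → STu m) → ∀ v : ℕ, STO N (Cv A v) →
  ∀ (S : Sp) (g r : ℕ) (s : MSys S N (lin g) (Fin r)), Cv A v S g r s → Lt s → volKO s (vis s.Q) 0 ≤ HK s (vis s.Q) 0

/-- SELECTION -/
def SELP (M : ℕ) : Prop := ∀ (A : MCl (M + 1)) (C : ℕ → MCl (M + 1)) (B : MCl (M + 1))
  (D : (Fin (M + 1) → ℝ) → ℕ → MCl (M + 1)), Okc (M + 1) A C → Ent A C → Okd (M + 1) A C B D →
    (∀ m, m < M + 1 → STu m) → ∀ v : ℕ, STO (M + 1) (Cv A (v + 1)) → ¬ STO (M + 1) (Cv A v) →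
      ∃ (m g r : ℕ) (w : Fin (M + 1) → ℝ) (Y : ∀ S : Sp, MSys S (M + 1) (lin g) (Fin r) → Prop),
        YC M (D w m) g r w Y

/-- EXIT (helper47, helper25) -/
def EXITP (M : ℕ) : Prop := ∀ (B : MCl (M + 1)), (∀ m, m < M + 1 → STu m) → ∀ (g r : ℕ) (w : Fin (M + 1) → ℝ) Y,
  YC M B g r w Y → ∃ (g' r' : ℕ) (ρ : ℝ) (TT : ∀ S : Sp, MSys S (M + 1) (lin g') (Fin r') → Prop), Hom M B g' r' w ρ TT

/-- the classes to which MAX applies: a deficient system of the class `Cl` gives a deficient system of a class `A` with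
all closure properties, with output class `Cl'` -/
def okM (N : ℕ) (Cl Cl' : MCl N) : Prop := (∀ m, m < N → STu m) → ¬ STO N Cl →
  ∃ (A : MCl N) (C : ℕ → MCl N) (D : (Fin N → ℝ) → ℕ → MCl N), Okc N A C ∧ Ent A C ∧ Okd N A C Cl' D ∧ ¬ STO N A

end

end Pool.Agent.Helper29.MX
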