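import Pool.Agent.Helper29.MX.St

/-! MAX: first lemmas (type-labels are the K-labels of the finest resolution). -/

set_option autoImplicit false

namespace Pool.Agent.Helper29.MX

open Finset Filter Topology Matrix Pool.Agent.Helper69.RK Pool.Agent.Helper31.EC Pool.Agent.Helper31.EC.Sp
open Pool.Agent.Helper40.EL Pool.Agent.Helper89.LX Pool.Agent.Helper84.MT
open Pool.Agent.Helper49.MD Pool.Agent.Helper36.AM
open Pool.Agent.Helper87.NSL (cndR KnS)
open Pool.Agent.Helper3.LF (Mon)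
open Pool.Agent.Helper89.RAD (cnA)
open Pool.Agent.Helper7.RD (RW volC volCO)

noncomputable section

variable {S T : Sp} {M : ℕ} {E : ℕ → ℕ} {ι : Type}

/-- the classes `C m` are closed inside `A` -/
theorem Okc.ocl {N : ℕ} {A : MCl N} {C : ℕ → MCl N} (h : Okc N A C) (m : ℕ) : Ocl N A (C m) where
  le := h.le m
  im := h.im m
  pull := fun S g r s hs T p => h.add m S g r s hs T p g r (fun _ => le_rfl)
    (fun i => ((s.lf i).pull p).monoE fun _ => le_rfl) id fun _ => rfl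
  trn := h.trn m
  dg := h.dg m

theorem cndR_eq (s : MSys S M E ι) (R : Rsl S) (c : ℝ) : cndR s R c = cnA s (fun k => fc (R k)) c :=
  funext fun i => by cases i <;> rfl

theorem leak_bot' {F : FSp} (l : FLab F) : l.leak (fc (⊥ : Setoid F.Ω)) = 0 := by
  have h2 : l.p.top ≤ l.p.map (fc (⊥ : Setoid F.Ω)) := by
    rw [l.p.map_fc]
    show fc (Setoid.ker l.p.π) ≤ fc _
    apply fc_le
    intro ω ω' _ _ _ h
    exact h
  exact I_zero_of_le_right h2

theorem kz_bot (l : Lab S) : (KZ (rbot S)).ev l := Eventually.of_forall fun k => leak_bot' (l k)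

theorem tlb_iff (s : MSys S M E ι) (c : ℝ) (l : Lab S) : KLb s (rbot S) c l ↔ TLb s c l := by
  constructor
  · intro h i
    exact h.1 (some i)
  · intro h
    refine ⟨?_, kz_bot l⟩
    intro i
    rcases i with _ | i
    · show Nul S fun k => (l k).leak (fc (⊥ : Setoid (S.F k).Ω))
      have e : (fun k => (l k).leak (fc (⊥ : Setoid (S.F k).Ω))) = fun _ => 0 := funext fun k => leak_bot' (l k)
      rw [e]
      exact Nul_zero S
    · exact h i

/-! ### volumes -/

theorem volK_eq (s : MSys S M E ι) (R : Rsl S) (D : ℕ) (c : ℝ) :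
    volK s R D c = volC (KZ R) (cndR s R c) s.Q D := by
  obtain ⟨x, hx⟩ := (gaq s.Q D).exists_optfK (KZ R) (cndR s R c)
  have hb : volC (KZ R) (cndR s R c) s.Q D ∈
      lowerBounds {v | ∃ x : ∀ k, FD (S.F k) (Mon M D), KAd s R D c x ∧ v = vol s.Q D x} := by
    rintro v ⟨y, hy, rfl⟩
    exact Pool.Agent.Helper7.RD.volC_le_of hy
  refine le_antisymm ?_ (le_csInf ⟨_, x, hx.1, rfl⟩ hb)
  rw [Pool.Agent.Helper7.RD.volC_eq hx]
  exact csInf_le ⟨_, hb⟩ ⟨x, hx.1, rfl⟩

theorem volKO_eq (s : MSys S M E ι) (R : Rsl S) (c : ℝ) : volKO s R c = volCO (KZ R) (cndR s R c) s.Q := by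
  unfold volKO volCO
  exact iInf_congr fun D => volK_eq s R D c

theorem volK_of_opt {s : MSys S M E ι} {R : Rsl S} {D : ℕ} {c : ℝ} {x : ∀ k, FD (S.F k) (Mon M D)}
    (hx : KOp s R D c x) : volK s R D c = vol s.Q D x := by
  rw [volK_eq, Pool.Agent.Helper7.RD.volC_eq hx]

theorem volK_le_of {s : MSys S M E ι} {R : Rsl S} {D : ℕ} {c : ℝ} {x : ∀ k, FD (S.F k) (Mon M D)}
    (hx : KAd s R D c x) : volK s R D c ≤ vol s.Q D x := by
  rw [volK_eq]
  exact Pool.Agent.Helper7.RD.volC_le_of hx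

theorem volKO_le_volK (s : MSys S M E ι) (R : Rsl S) (D : ℕ) (c : ℝ) : volKO s R c ≤ volK s R D c := by
  rw [volKO_eq, volK_eq]
  exact Pool.Agent.Helper7.RD.volCO_le D

theorem volKO_le_of {s : MSys S M E ι} {R : Rsl S} {D : ℕ} {c : ℝ} {x : ∀ k, FD (S.F k) (Mon M D)}
    (hx : KAd s R D c x) : volKO s R c ≤ vol s.Q D x := (volKO_le_volK s R D c).trans (volK_le_of hx)

theorem volKO_le_M (s : MSys S M E ι) (R : Rsl S) (c : ℝ) : volKO s R c ≤ M := by
  rw [volKO_eq]
  exact Pool.Agent.Helper7.RD.volCO_le_M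

theorem volKO_nonneg (s : MSys S M E ι) (R : Rsl S) (c : ℝ) : 0 ≤ volKO s R c := by
  rw [volKO_eq]
  exact Pool.Agent.Helper7.RD.volCO_nonneg

/-- forms over type-labels -/
theorem kad_bot [Finite ι] {s : MSys S M E ι} {D : ℕ} {c : ℝ} {x : ∀ k, FD (S.F k) (Mon M D)} :
    KAd s (rbot S) D c x ↔ (gaq s.Q D).Adf (fun i => (s.lf i).win c) x := by
  constructor
  · intro h
    exact h.1.mono_of fun i => ⟨some i, PLe.refl _⟩
  · intro h
    refine ⟨?_, kz_bot _⟩
    rw [Gau.Adf_iff] at h ⊢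
    exact ⟨((tlb_iff s c _).mpr h.1).1, h.2⟩

end

end Pool.Agent.Helper29.MX
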