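import Pool.Agent.Helper94.SEL.St
import Pool.Agent.Helper26.OUT.Wl

/-! SELECTION, SECOND HALF (ns_max_v4, sections 9 - 11): from a member of the last class of pairs (`LL` of helper94) to the
homogeneous class `YC`. Definitions and rows.

`Mc` least carrier with a frame; `Num`, `Tot` exact numbers; `Car` existence of least carriers; `Dfx` deficit, `Vsx`
visibility relative to the least carriers; `JT` the joint class of pairs (unsorted weights, flag rows); `YM` the last class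
(sorted weights, frames, type-labels). -/

set_option autoImplicit false

namespace Pool.Agent.Helper29.MX

open Finset Filter Topology Matrix Pool.Agent.Helper69.RK Pool.Agent.Helper31.EC Pool.Agent.Helper31.EC.Sp
open Pool.Agent.Helper40.EL Pool.Agent.Helper89.LX Pool.Agent.Helper84.MT
open Pool.Agent.Helper49.MD Pool.Agent.Helper36.AM
open Pool.Agent.Helper47.FN (KR lftR obR)
open Pool.Agent.Helper26.OUT (WDs)
open Pool.Agent.Helper94.SEL (Par Ctx LL Spd MnC JNT)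

noncomputable section

variable {S T : Sp} {N M : ℕ} {E : ℕ → ℕ} {ι : Type}

/-- sum of the first `j` weights -/
def wsm (w : Fin N → ℝ) (j : ℕ) : ℝ := ∑ i : Fin N, if (i : ℕ) < j then w i else 0

/-- LEAST CARRIER of the window `c`, weights `w`: a literal K-label with a frame of exponents `w j * c`, known (up to
`o(n)` bits) to every K-label of the window with such a frame -/
structure Mc (s : MSys S N E ι) (R : Rsl S) (w : Fin N → ℝ) (c : ℝ) (X : Rsl S) : Prop where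
  lit : ∀ᶠ k in UF, R k ⊓ (S.F k).Z ≤ X k
  kl : KLb s R c (Lab.ofZ X)
  fr : Nonempty (Frm s.Q (Lab.ofZ X) fun j => w j * c)
  min : ∀ l : Lab S, KLb s R c l → Nonempty (Frm s.Q l fun j => w j * c) →
    Nul S fun k => h ((l k).p.map (fc (X k))) (l k).v

/-! ### the clauses (for one law; in the classes they hold on all events of all extensions) -/

/-- exact numbers of all prefixes, as long as no exponent exceeds `1` -/
def Num (w : Fin N → ℝ) (s : MSys S N E ι) (R : Rsl S) : Prop := ∀ c : ℝ, 0 ≤ c → (∀ i, w i * c < 1) →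
  ∀ (j : ℕ) (hj : j ≤ N), volP s R c hj = j - wsm w j * c

/-- exact total number -/
def Tot (w : Fin N → ℝ) (s : MSys S N E ι) (R : Rsl S) : Prop := ∀ c : ℝ, 0 ≤ c → (∀ i, w i * c < 1) →
  volKO s R c = N - (∑ i, w i) * c

/-- least carriers exist -/
def Car (w : Fin N → ℝ) (s : MSys S N E ι) (R : Rsl S) : Prop := ∀ c : ℝ, 0 ≤ c → (∀ i, w i * c < 1) →
  ∃ X, Mc s R w c X

/-- DEFICIT `ρ` in the boxes of the least carriers -/
def Dfx (w : Fin N → ℝ) (ρ : ℝ) (s : MSys S N E ι) (R : Rsl S) : Prop := ∀ c : ℝ, 0 ≤ c → (∀ i, w i * c < 1) →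
  ∀ X, Mc s R w c X → ∀ (f : Frm s.Q (Lab.ofZ X) fun j => w j * c) (e : ℝ), 0 < e → (∀ i, w i * c + e ≤ 1) →
    ul (fun k => h (fc (Setoid.ker (f.X.cellv e k)) : FL (Lab.ofZ X k).T) (Lab.ofZ X k).v / (S.F k).n) ≤ (N - ρ) * e

/-- VISIBILITY, hereditary form: the least carrier of the window `c'` is known to the least carrier of the window `c` and
the cells of depth `e` of its box, if the exponents grow by less than `e` -/
def Vsx (w : Fin N → ℝ) (s : MSys S N E ι) (R : Rsl S) : Prop := ∀ c c' : ℝ, 0 ≤ c → c ≤ c' → (∀ i, w i * c' < 1) →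
  ∀ X X', Mc s R w c X → Mc s R w c' X' → ∀ (f : Frm s.Q (Lab.ofZ X) fun j => w j * c) (e : ℝ), 0 < e →
    (∀ i, w i * c + e ≤ 1) → (∀ i, w i * (c' - c) < e) →
      Nul S fun k => h ((Lab.ofZ X k).p.map (fc (X' k)))
        ((Lab.ofZ X k).v ⊔ (fc (Setoid.ker (f.X.cellv e k)) : FL (Lab.ofZ X k).T))

/-! ### the classes -/

/-- THE JOINT CLASS OF PAIRS: weights `w` (not sorted), resolution `R` -/
structure JT (C : MCl N) (v g r : ℕ) (w : Fin N → ℝ) (ρ : ℝ) (S : Sp) (s : MSys S N (lin g) (Fin r)) (R : Rsl S) :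
    Prop where
  cl : CvK C v S g r s R
  pol : WDs (fun _ => (g : ℝ)) s
  num : AllE (fun _ t R' => Num w t R') S s R
  car : AllE (fun _ t R' => Car w t R') S s R
  dfx : AllE (fun _ t R' => Dfx w ρ t R') S s R
  vsx : AllE (fun _ t R' => Vsx w t R') S s R

/-- THE LAST CLASS: sorted weights, type-labels -/
structure YM (D : MCl N) (v g r : ℕ) (w : Fin N → ℝ) (ρ : ℝ) (S : Sp) (s : MSys S N (lin g) (Fin r)) : Prop where
  cl : D S g r s
  inv : Inv v s
  wd : WDs w s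
  tot : AllE (fun _ t R => Tot w t R) S s (rbot S)
  car : AllE (fun _ t R => Car w t R) S s (rbot S)
  dfx : AllE (fun _ t R => Dfx w ρ t R) S s (rbot S)
  vsx : AllE (fun _ t R => Vsx w t R) S s (rbot S)

/-- conditions on the weights and the degree in the last class -/
structure Wts (M g : ℕ) (w : Fin (M + 1) → ℝ) (ρ : ℝ) : Prop where
  g1 : 1 ≤ g
  mono : Monotone w
  one : w 0 = 1
  ge : ∀ i, 1 ≤ w i
  le : ∀ i, w i ≤ g
  rho : 0 < ρ

/-! ### rows -/

/-- the weights of the speeds `a` of the prefixes -/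
def wof (M : ℕ) (a : ℕ → ℝ) : Fin (M + 1) → ℝ := fun i => a (i + 1) - a i

/-- THE JOINT WITH THE FIRST HALF: small truncations (`e ≤ e1`, `e1` depends on the parameters only) of the members of the
last class of the first half have the property `P` (weights `wof M a`, a deficit `ρ'`). NUMJ (71, 25): numbers; CARJ (48,
95): least carriers; DEFJ (9): deficit; HERJ (95, 71, 26): visibility -/
def JCx (P : ∀ (M : ℕ) (_w : Fin (M + 1) → ℝ) (_ρ : ℝ) (g r : ℕ) (S : Sp)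
    (_s : MSys S (M + 1) (lin g) (Fin r)) (_R : Rsl S), Prop) (M : ℕ) : Prop :=
  ∀ (A : MCl (M + 1)) (C : ℕ → MCl (M + 1)) (v : ℕ), Ctx M A C v →
  ∀ (m g r e0 : ℕ) (P' : Par) (W : ℝ) (a : ℕ → ℝ), W ≤ P'.La → Spd M a W → MnC (C m) v r e0 P' W →
    ∃ e1 ρ' : ℝ, 0 < e1 ∧ 0 < ρ' ∧ ∀ (S : Sp) (s : MSys S (M + 1) (lin g) (Fin r)) (R : Rsl S),
      LL (C m) v g r e0 P' a S s R → ∀ (e : ℝ) (he : 0 < e) (h1 : e ≤ 1), e ≤ e1 →
        P M (wof M a) ρ' g r (S.chg S.tr e he) (s.trn e he h1) R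

/-- [NUMJ] exact numbers of the truncations -/
def NUMJ (M : ℕ) : Prop := JCx (fun _ w _ _ _ S s R => AllE (fun _ t R' => Num w t R') S s R) M

/-- [CARJ] least carriers of the truncations -/
def CARJ (M : ℕ) : Prop := JCx (fun _ w _ _ _ S s R => AllE (fun _ t R' => Car w t R') S s R) M

/-- [DEFJ] deficit in the boxes -/
def DEFJ (M : ℕ) : Prop := JCx (fun _ w ρ _ _ S s R => AllE (fun _ t R' => Dfx w ρ t R') S s R) M

/-- [HERJ] visibility, hereditary form -/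
def HERJ (M : ℕ) : Prop := JCx (fun _ w _ _ _ S s R => AllE (fun _ t R' => Vsx w t R') S s R) M

/-- [COPY] (70, 8): a copy of one type given the deep resolution; then type-labels instead of K-labels -/
def CPYR (M : ℕ) : Prop := ∀ (A : MCl (M + 1)) (C : ℕ → MCl (M + 1)) (v : ℕ), Ctx M A C v →
  ∀ (m g r : ℕ) (w : Fin (M + 1) → ℝ) (ρ : ℝ), (∀ i, 1 ≤ w i) → 0 < ρ → ∀ (S : Sp)
    (s : MSys S (M + 1) (lin g) (Fin r)) (R : Rsl S), JT (C m) v g r w ρ S s R →
      ∃ (T : Sp) (t : MSys T (M + 1) (lin g) (Fin (r + 1))), JT (C m) v g (r + 1) w ρ T t (rbot T)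

/-- [SORT] (18, 7, 77): sorted coordinates, weight one first, weighted degrees -/
def SRTR (M : ℕ) : Prop := ∀ (A : MCl (M + 1)) (C : ℕ → MCl (M + 1)) (B : MCl (M + 1))
  (D : (Fin (M + 1) → ℝ) → ℕ → MCl (M + 1)) (v : ℕ), Ctx M A C v → Okd (M + 1) A C B D →
    ∀ (m g r : ℕ) (w : Fin (M + 1) → ℝ) (ρ : ℝ), (∀ i, 1 ≤ w i) → 0 < ρ → ∀ (S : Sp)
      (s : MSys S (M + 1) (lin g) (Fin r)), JT (C m) v g r w ρ S s (rbot S) →
        ∃ (g' : ℕ) (w' : Fin (M + 1) → ℝ) (T : Sp) (t : MSys T (M + 1) (lin g') (Fin r)), Wts M g' w' ρ ∧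
          YM (D w' m) v g' r w' ρ T t

/-- [ZMY] (85): zooms over all type-labels in all frames, every unit -/
def ZMYR (M : ℕ) : Prop := ∀ (A : MCl (M + 1)) (C : ℕ → MCl (M + 1)) (B : MCl (M + 1))
  (D : (Fin (M + 1) → ℝ) → ℕ → MCl (M + 1)) (v : ℕ), Ctx M A C v → Okd (M + 1) A C B D →
    ∀ (m g r : ℕ) (w : Fin (M + 1) → ℝ) (ρ : ℝ), Wts M g w ρ → ∀ (S : Sp) (s : MSys S (M + 1) (lin g) (Fin r)),
      YM (D w m) v g r w ρ S s → ∀ c : ℝ, 0 ≤ c → w (Fin.last M) * c < 1 → ∀ (l : Lab S)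
        (f : Frm s.Q l (fun j => w j * c)), TLb s c l → ∀ (e : ℝ) (he : 0 < e), w (Fin.last M) * c + e ≤ 1 →
          ∃ t : MSys (l.ovr e he) (M + 1) (lin g) (Fin r), Gzf s l f c e he t ∧ YM (D w m) v g r w ρ _ t

/-- [DGY] (21): slow diagonals -/
def DGYR (M : ℕ) : Prop := ∀ (A : MCl (M + 1)) (C : ℕ → MCl (M + 1)) (B : MCl (M + 1))
  (D : (Fin (M + 1) → ℝ) → ℕ → MCl (M + 1)) (v : ℕ), Ctx M A C v → Okd (M + 1) A C B D →
    ∀ (m g r : ℕ) (w : Fin (M + 1) → ℝ) (ρ : ℝ), Wts M g w ρ →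
      DiagCl (lft fun S (s : MSys S (M + 1) (lin g) (Fin r)) => YM (D w m) v g r w ρ S s)

/-- [TRY] truncations -/
def TRYR (M : ℕ) : Prop := ∀ (A : MCl (M + 1)) (C : ℕ → MCl (M + 1)) (B : MCl (M + 1))
  (D : (Fin (M + 1) → ℝ) → ℕ → MCl (M + 1)) (v : ℕ), Ctx M A C v → Okd (M + 1) A C B D →
    ∀ (m g r : ℕ) (w : Fin (M + 1) → ℝ) (ρ : ℝ), Wts M g w ρ → ∀ (S : Sp) (s : MSys S (M + 1) (lin g) (Fin r)),
      YM (D w m) v g r w ρ S s → ∀ (e : ℝ) (he : 0 < e) (h1 : e ≤ 1),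
        YM (D w m) v g r w ρ (S.chg S.tr e he) (s.trn e he h1)

end

end Pool.Agent.Helper29.MX
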