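import Pool.Agent.Helper29.MX.St2
import Pool.Agent.Helper52.MW.Ime
import Pool.Agent.Helper47.EXT.Yc
import Pool.Agent.Helper3.ENT.Ent
import Pool.Agent.Helper55.INV.Trn

/-! SELECTION, SECOND HALF: the assembly. The last class `YM` is a homogeneous class `YC`; a member of the last class of
pairs gives a member of `YM`. -/

set_option autoImplicit false

namespace Pool.Agent.Helper29.MX

open Finset Filter Topology Matrix Pool.Agent.Helper69.RK Pool.Agent.Helper31.EC Pool.Agent.Helper31.EC.Sp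
open Pool.Agent.Helper40.EL Pool.Agent.Helper89.LX Pool.Agent.Helper84.MT
open Pool.Agent.Helper49.MD Pool.Agent.Helper36.AM
open Pool.Agent.Helper47.FN (KR lftR obR)
open Pool.Agent.Helper47.EXT (f0)
open Pool.Agent.Helper3.LF (Mon)
open Pool.Agent.Helper87.NSL (cndR KnS)
open Pool.Agent.Helper26.OUT (WDs)
open Pool.Agent.Helper52.MW (AllE_im AllE_self)
open Pool.Agent.Helper94.SEL (Par Ctx LL Spd MnC JNT)

noncomputable section

variable {S T : Sp} {N M g r v : ℕ} {E : ℕ → ℕ} {ι : Type}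

/-- the entropy of the point -/
theorem H_dg_ul {Q : S.VV N} (r : ℝ) : H (Q.dg r) = ul (fun k => H (fc (Setoid.ker (Q.cellv r k)) : FL (S.F k)) /
    (S.F k).n) := by
  have h1 : H (Q.dg r) = ul (S.rt (fun k => Setoid.ker (Q.cellv r k)) S.tr) := Sp.H_io (Q.bdd r)
  rw [h1]
  congr 1
  funext k
  show (S.F k).e _ (⊤ ⊓ (S.F k).Z) / _ = (S.F k).e _ (S.F k).Z / _
  rw [top_inf_eq]

/-- the trivial partition is the least carrier of the window `0` -/
theorem mc_zero (s : MSys S N E ι) (R : Rsl S) (w : Fin N → ℝ) : Mc s R w 0 (fun _ => ⊤) := by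
  have e1 : ∀ k, (fc (⊤ : Setoid (S.F k).Ω) : FL (S.F k)) = ⊥ := fun k => rfl
  have e2 : ∀ (x : Part S) k, ((Lab.ofZ (S := S) fun _ => ⊤) k).leak (x k) = 0 := fun x k => by
    rw [Lab.ofZ_leak, e1]
    exact h_zero bot_le
  refine ⟨Eventually.of_forall fun k => le_top, ⟨fun i => ?_, Eventually.of_forall fun k => e2 (fun k => fc (R k)) k⟩,
    ⟨f0 s.Q _ fun i => mul_zero _⟩, fun l _ _ => ?_⟩
  · have e3 : (fun k => ((Lab.ofZ (S := S) fun _ => ⊤) k).leak (cndR s R 0 i k)) = fun _ => 0 := funext fun k => e2 _ k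
    show Nul S _
    rw [e3]
    exact Nul_zero S
  · have e3 : (fun k => h ((l k).p.map (fc (⊤ : Setoid (S.F k).Ω))) (l k).v) = fun _ => 0 := funext fun k => by
      rw [e1, (l k).p.map_bot]
      exact h_zero bot_le
    rw [e3]
    exact Nul_zero S

theorem ofZ_top_v (k : ℕ) : ((Lab.ofZ (S := S) fun _ => ⊤) k).v = ⊥ := rfl

section members

variable {D : MCl N} {w : Fin N → ℝ} {ρ : ℝ} {s : MSys S N (lin g) (Fin r)}

theorem YM.im (hw : ∀ j, 0 ≤ w j) (h : YM D v g r w ρ S s)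
    (hD : ∀ S s, D S g r s → ∀ (T : Sp) (p : Pj T S) (A : ∀ k, (T.F k).Ω → Prop) (hA : 0 < ul (T.pr A)),
      D (Sp.im p A) g r (s.im p A hA)) (p : Pj T S) (A : ∀ k, (T.F k).Ω → Prop) (hA : 0 < ul (T.pr A)) :
    YM D v g r w ρ (Sp.im p A) (s.im p A hA) where
  cl := hD _ _ h.cl T p A hA
  inv := Pool.Agent.Helper3.ENT.inv_im h.inv p A hA
  wd := WDs.im hw h.wd p A hA
  tot := AllE_im h.tot p A hA
  car := AllE_im h.car p A hA
  dfx := AllE_im h.dfx p A hA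
  vsx := AllE_im h.vsx p A hA

/-- the members are stable -/
theorem YM.stb (h : YM D v g r w ρ S s) : Stb 0 s (rbot S) := fun T p A hA => by
  have h1 : volKO (s.im p A hA) (S := Sp.im p A) (rbot S) 0 = N - (∑ i, w i) * 0 :=
    h.tot T p A hA 0 le_rfl fun i => by rw [mul_zero]; exact one_pos
  show (N : ℝ) - 0 ≤ volKO (s.im p A hA) (S := Sp.im p A) (rbot S) 0
  rw [h1, mul_zero]

/-- the deficit of the point -/
theorem YM.lt (hρ : 0 < ρ) (h : YM D v g r w ρ S s) : H (s.Q.dg 1) < N := by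
  have h1 := AllE_self h.dfx 0 le_rfl (fun i => by rw [mul_zero]; exact one_pos) _ (mc_zero s _ w)
    (f0 s.Q _ fun i => mul_zero _) 1 one_pos (fun i => by rw [mul_zero, zero_add])
  rw [mul_one] at h1
  refine lt_of_le_of_lt (le_trans (le_of_eq ?_) h1) (by linarith)
  rw [H_dg_ul]
  congr 1
  funext k
  rw [ofZ_top_v, Pool.Agent.Helper31.EC.h_bot]
  rfl

/-- least carriers are visible -/
theorem YM.vis (h : YM D v g r w ρ S s) {c : ℝ} (h0 : 0 ≤ c) (hc : ∀ i, w i * c < 1) {X : Rsl S}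
    (hX : Mc s (rbot S) w c X) : s.DMc c (Lab.ofZ X) := by
  have h1 := AllE_self h.vsx 0 c le_rfl h0 hc _ X (mc_zero s _ w) hX (f0 s.Q _ fun i => mul_zero _) 1 one_pos
    (fun i => by rw [mul_zero, zero_add]) (fun i => by rw [sub_zero]; exact hc i)
  intro i
  rcases i with _ | i
  · show Nul S fun k => ((Lab.ofZ X) k).leak (pcd s.Q k)
    have e1 : (fun k => ((Lab.ofZ X) k).leak (pcd s.Q k)) = fun k => Pool.Agent.Helper31.EC.h (fc (X k)) (pcd s.Q k) :=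
      funext fun k => Lab.ofZ_leak X _ k
    rw [e1]
    refine h1.of_le (Eventually.of_forall fun k => h_nonneg _ _) (Eventually.of_forall fun k => ?_)
    rw [ofZ_top_v, bot_sup_eq]
    exact le_of_eq rfl
  · exact hX.kl.1 (some i)

end members

variable {A : MCl (M + 1)} {C : ℕ → MCl (M + 1)} {B : MCl (M + 1)} {D : (Fin (M + 1) → ℝ) → ℕ → MCl (M + 1)}

theorem Wts.nn {w : Fin (M + 1) → ℝ} {ρ : ℝ} (h : Wts M g w ρ) (i : Fin (M + 1)) : 0 ≤ w i :=
  zero_le_one.trans (h.ge i)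

theorem Wts.lt {w : Fin (M + 1) → ℝ} {ρ c : ℝ} (h : Wts M g w ρ) (h0 : 0 ≤ c) (hc : w (Fin.last M) * c < 1)
    (i : Fin (M + 1)) : w i * c < 1 := (mul_le_mul_of_nonneg_right (h.mono (Fin.le_last i)) h0).trans_lt hc

theorem pt_trn {s : MSys S N E ι} {R : Rsl S} (h : Pt s R) {e : ℝ} (he : 0 < e) (h1 : e ≤ 1) :
    Pt (s.trn e he h1) (S := S.chg S.tr e he) R := by
  have h2 : KnS R s.Q.v := h
  unfold KnS at h2
  filter_upwards [h2] with k hk ω ω' a b hZ hR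
  exact hk ω ω' a b hZ.2 hR

/-- **THE LAST CLASS IS HOMOGENEOUS** -/
theorem yc_of (hZ : ZMYR M) (hD : DGYR M) (hT : TRYR M) (hx : Ctx M A C v) (hd : Okd (M + 1) A C B D) {m : ℕ}
    {w : Fin (M + 1) → ℝ} {ρ : ℝ} (hw : Wts M g w ρ)
    (hne : ∃ (S : Sp) (s : MSys S (M + 1) (lin g) (Fin r)), YM (D w m) v g r w ρ S s) :
    YC M (D w m) g r w fun S s => YM (D w m) v g r w ρ S s where
  cl := fun S s h => h.cl
  ne := hne
  im := fun S s h T p E hE => h.im hw.nn (fun S s h => hd.im w m S g r s h) p E hE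
  dg := hD A C B D v hx hd m g r w ρ hw
  trn := fun S s h e he h1 => hT A C B D v hx hd m g r w ρ hw S s h e he h1
  mono := hw.mono
  one := hw.one
  wd := fun S s h => h.wd
  typ := fun S s h c h0 hc Dg x hx => by
    have h1 := AllE_self h.tot c h0 (hw.lt h0 hc)
    have h2 := volKO_le_of (kad_bot.mpr hx : KAd s (rbot S) Dg c x)
    rw [h1, Nat.cast_add, Nat.cast_one, Finset.sum_mul] at h2
    exact h2
  box := fun S s h c h0 hc => by
    obtain ⟨X, hX⟩ := AllE_self h.car c h0.le (hw.lt h0.le hc)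
    obtain ⟨f⟩ := hX.fr
    exact ⟨_, f, h.vis h0.le (hw.lt h0.le hc) hX⟩
  zoom := fun S s h c h0 hc l f hl e he h1 => hZ A C B D v hx hd m g r w ρ hw S s h c h0 hc l f hl e he h1
  dfc := fun S s h => by
    have h1 := h.lt hw.rho
    rw [Nat.cast_add, Nat.cast_one] at h1
    exact h1

/-- weights of the prefixes -/
theorem wof_ge {a : ℕ → ℝ} {W : ℝ} (h : Spd M a W) (i : Fin (M + 1)) : 1 ≤ wof M a i := by
  have h1 := h.step i (Nat.lt_succ_iff.mp i.2)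
  unfold wof
  linarith

theorem Dfx.mono {w : Fin N → ℝ} {ρ ρ' : ℝ} {s : MSys S N E ι} {R : Rsl S} (hρ : ρ' ≤ ρ) (h : Dfx w ρ s R) :
    Dfx w ρ' s R := fun c h0 hc X hX f e he h1 => (h c h0 hc X hX f e he h1).trans
      (mul_le_mul_of_nonneg_right (by linarith) he.le)

/-- the joint class from the last class of the first half -/
theorem jt_of (h1 : NUMJ M) (h2 : CARJ M) (h3 : DEFJ M) (h4 : HERJ M) (hx : Ctx M A C v) {m e0 : ℕ} {P : Par} {W : ℝ}
    {a : ℕ → ℝ} (hW : W ≤ P.La) (hs : Spd M a W) (hm : MnC (C m) v r e0 P W) {s : MSys S (M + 1) (lin g) (Fin r)}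
    {R : Rsl S} (h : LL (C m) v g r e0 P a S s R) : ∃ (ρ : ℝ) (S' : Sp) (t : MSys S' (M + 1) (lin g) (Fin r))
      (R' : Rsl S'), 0 < ρ ∧ JT (C m) v g r (wof M a) ρ S' t R' := by
  obtain ⟨e1, _, p1, _, k1⟩ := h1 A C v hx m g r e0 P W a hW hs hm
  obtain ⟨e2, _, p2, _, k2⟩ := h2 A C v hx m g r e0 P W a hW hs hm
  obtain ⟨e3, ρ, p3, hρ, k3⟩ := h3 A C v hx m g r e0 P W a hW hs hm
  obtain ⟨e4, _, p4, _, k4⟩ := h4 A C v hx m g r e0 P W a hW hs hm
  obtain ⟨e, he, q0, q1, q2, q3, q4⟩ : ∃ e : ℝ, 0 < e ∧ e ≤ 1 ∧ e ≤ e1 ∧ e ≤ e2 ∧ e ≤ e3 ∧ e ≤ e4 :=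
    ⟨min 1 (min e1 (min e2 (min e3 e4))), by positivity, min_le_left _ _,
      (min_le_right _ _).trans (min_le_left _ _),
      (min_le_right _ _).trans ((min_le_right _ _).trans (min_le_left _ _)),
      (min_le_right _ _).trans ((min_le_right _ _).trans ((min_le_right _ _).trans (min_le_left _ _))),
      (min_le_right _ _).trans ((min_le_right _ _).trans ((min_le_right _ _).trans (min_le_right _ _)))⟩
  have hc := h.ke.bk.cl
  refine ⟨ρ, _, s.trn e he q0, R, hρ, ⟨hx.ok.trn m S g r s hc.1 e he q0, ?_, ?_⟩,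
    WDs.trn (fun _ => Nat.cast_nonneg _) h.ke.bk.pol e he q0, k1 S s R h e he q0 q1, k2 S s R h e he q0 q2,
    k3 S s R h e he q0 q3, k4 S s R h e he q0 q4⟩
  · exact pt_trn hc.2.1 he q0
  · exact Pool.Agent.Helper55.INV.inv_trn hc.2.2 he q0

/-- **THE SECOND HALF**: a homogeneous class from a member of the last class of the first half -/
theorem sel2 (h1 : NUMJ M) (h2 : CARJ M) (h3 : DEFJ M) (h4 : HERJ M) (h5 : CPYR M) (h6 : SRTR M) (hZ : ZMYR M)
    (hD : DGYR M) (hT : TRYR M) (hx : Ctx M A C v) (hd : Okd (M + 1) A C B D) {m e0 : ℕ} {P : Par} {W : ℝ}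
    {a : ℕ → ℝ} (hW : W ≤ P.La) (hs : Spd M a W) (hm : MnC (C m) v r e0 P W) {s : MSys S (M + 1) (lin g) (Fin r)}
    {R : Rsl S} (h : LL (C m) v g r e0 P a S s R) :
    ∃ (m g r : ℕ) (w : Fin (M + 1) → ℝ) (Y : ∀ S : Sp, MSys S (M + 1) (lin g) (Fin r) → Prop),
      YC M (D w m) g r w Y := by
  obtain ⟨ρ, S', t, R', hρ, k1⟩ := jt_of h1 h2 h3 h4 hx hW hs hm h
  obtain ⟨T, t', k2⟩ := h5 A C v hx m g r _ ρ (wof_ge hs) hρ S' t R' k1
  obtain ⟨g', w', T', t'', k3, k4⟩ := h6 A C B D v hx hd m g (r + 1) _ ρ (wof_ge hs) hρ T t' k2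
  exact ⟨m, g', r + 1, w', _, yc_of hZ hD hT hx hd k3 ⟨T', t'', k4⟩⟩

/-- **SELP FROM THE JOINT AND THE ROWS OF THE SECOND HALF** -/
theorem selp_of (hM : 1 ≤ M) (h0 : JNT M) (h1 : NUMJ M) (h2 : CARJ M) (h3 : DEFJ M) (h4 : HERJ M)
    (h5 : CPYR M) (h6 : SRTR M) (hZ : ZMYR M) (hD : DGYR M) (hT : TRYR M) : SELP M := by
  intro A C B D hC hE hd hst v hs hns
  have hx : Ctx M A C v := ⟨hM, hC, hst, hs⟩
  obtain ⟨m, g, r, e0, P, W, a, hW, hsp, hm, S, s, R, h⟩ := h0 A C v hx hE hns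
  exact sel2 h1 h2 h3 h4 h5 h6 hZ hD hT hx hd hW hsp hm h

end

end Pool.Agent.Helper29.MX
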