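import Pool.Agent.Helper29.MX.Bas
import Pool.Agent.Helper36.AM.Inp
import Pool.Agent.Helper36.AM.Top

/-! MAX for the pairs of classes with `okM`, from the selection and the exit. -/

set_option autoImplicit false

namespace Pool.Agent.Helper29.MX

open Finset Filter Topology Matrix Pool.Agent.Helper69.RK Pool.Agent.Helper31.EC Pool.Agent.Helper31.EC.Sp
open Pool.Agent.Helper40.EL Pool.Agent.Helper89.LX Pool.Agent.Helper84.MT
open Pool.Agent.Helper49.MD Pool.Agent.Helper36.AM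
open Pool.Agent.Helper3.LF (Mon)

noncomputable section

variable {S T : Sp} {M : ℕ} {E : ℕ → ℕ} {ι κ : Type}

/-! ### conditions with the same labels -/

theorem adf_congr [Finite ι] [Finite κ] {D : ℕ} {Q : S.VV M} {A : ι → Part S} {B : κ → Part S}
    (h : ∀ l : Lab S, l.DMf A ↔ l.DMf B) {x : ∀ k, FD (S.F k) (Mon M D)} :
    (gaq Q D).Adf A x ↔ (gaq Q D).Adf B x := by
  rw [Gau.Adf_iff, Gau.Adf_iff]
  exact ⟨fun h' => ⟨(h _).mp h'.1, h'.2⟩, fun h' => ⟨(h _).mpr h'.1, h'.2⟩⟩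

theorem optf_congr [Finite ι] [Finite κ] {D : ℕ} {Q : S.VV M} {A : ι → Part S} {B : κ → Part S}
    (h : ∀ l : Lab S, l.DMf A ↔ l.DMf B) {x : ∀ k, FD (S.F k) (Mon M D)} (hx : (gaq Q D).Optf A x) :
    (gaq Q D).Optf B x := ⟨(adf_congr h).mp hx.1, fun y hy => hx.2 y ((adf_congr h).mpr hy)⟩

theorem maxf_congr {A : ι → Part S} {B : κ → Part S} (h : ∀ l : Lab S, l.DMf A ↔ l.DMf B) {l : Lab S}
    (hl : l.IsMaxf A) : l.IsMaxf B := ⟨(h l).mp hl.1, fun l' h' => hl.2 l' ((h l').mpr h')⟩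

/-- two systems with the same point and the same labels of the window `0` -/
theorem same {g g' r r' : ℕ} {s : MSys S M (lin g) (Fin r)} {s' : MSys S M (lin g') (Fin r')} (hQ : s'.Q = s.Q)
    (h : ∀ l : Lab S, s.DMc 0 l ↔ s'.DMc 0 l) : volO s' 0 = volO s 0 ∧ HQ s' 0 = HQ s 0 := by
  constructor
  · unfold volO
    refine iInf_congr fun D => ?_
    obtain ⟨x, hx, -⟩ := s.exists_can D 0
    have h1 := s.vol_eq hx
    have h2 : (gaq s'.Q D).Optf (s'.cnd 0) x := by
      rw [hQ]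
      exact optf_congr h hx
    have h3 := s'.vol_eq h2
    rw [← h1, ← h3, hQ]
  · have h1 := s.kap_isKap 0
    have h2 : s'.IsKap 0 (s.kap 0) := maxf_congr h h1
    have h3 := HQ_eq s' h2
    have h4 := HQ_eq s h1
    rw [← h3, ← h4, hQ]

/-! ### the trivial type -/

/-- the variable without coordinates -/
def y0 (S : Sp) : S.VV 0 := ⟨fun _ _ i => i.elim0, fun _ => 0, S.Sub_const le_rfl,
  Eventually.of_forall fun _ _ _ i => i.elim0⟩

/-- the TRIVIAL TYPE: everything is known -/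
def lf0 (Q : S.VV M) (g : ℕ) (hg : 1 ≤ g) : Leaf S Q (lin g) :=
  Leaf.ofPoly g hg 0 (Nat.zero_le _) (fun _ => ⊥) (y0 S) (fun k ω j => MvPolynomial.C (Q.v k ω j))
    (fun k ω i => by rw [MvPolynomial.totalDegree_C]; exact Nat.zero_le _)
    (Eventually.of_forall fun k ω ω' _ _ _ h => by
      have h1 : ω = ω' := h
      rw [h1])
    (by
      classical
      obtain ⟨K, hK, hb⟩ := Q.bd
      refine ⟨K, hK, ?_⟩
      filter_upwards [hb, hK.1] with k h1 h2 ω hω i a
      rw [MvPolynomial.coeff_C]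
      split_ifs
      · exact h1 ω hω i
      · rw [abs_zero]
        exact h2)
    ⟨fun _ => 0, S.Sub_const le_rfl, Eventually.of_forall fun k ω _ i => by
      rw [MvPolynomial.eval_C, sub_self, abs_zero, zero_mul]⟩
    (by
      have e : (fun k => h (fc (Setoid.ker ((y0 S).cellv 1 k))) (fc (⊥ : Setoid (S.F k).Ω)) / (S.F k).n) =
          fun _ => 0 := by
        funext k
        have h1 : h (fc (Setoid.ker ((y0 S).cellv 1 k))) (fc (⊥ : Setoid (S.F k).Ω)) = 0 := by
          apply h_zero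
          apply fc_le
          intro ω ω' _ _ _ h
          have h2 : ω = ω' := h
          rw [h2]
        rw [h1, zero_div]
      rw [e, Nat.cast_zero]
      exact tendsto_const_nhds)

/-- with at least one type -/
theorem exists_type {A : MCl M} (hA : OkA M A) {g r : ℕ} {s : MSys S M (lin g) (Fin r)} (hs : A S g r s)
    (hr : r = 0) : ∃ (g' : ℕ) (s' : MSys S M (lin g') (Fin 1)), A S g' 1 s' ∧ volO s' 0 = volO s 0 ∧
      HQ s' 0 = HQ s 0 := by
  subst hr
  have hg : ∀ D, lin g D ≤ lin (g + 1) D := fun D => by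
    unfold lin
    exact Nat.mul_le_mul_right _ (Nat.le_succ g)
  set L : Fin 1 → Leaf S ((Pj.id S).vv s.Q) (lin (g + 1)) := fun _ => lf0 ((Pj.id S).vv s.Q) (g + 1) (Nat.succ_pos g) with hL
  have h1 := hA.add S g 0 s hs S (Pj.id S) (g + 1) 1 hg L (fun i => i.elim0) (fun i => i.elim0)
  refine ⟨g + 1, ⟨(Pj.id S).vv s.Q, L⟩, h1, ?_⟩
  refine same rfl fun l => ⟨fun h i => ?_, fun h i => ?_⟩
  · rcases i with _ | i
    · exact h none
    · have e : (fun k => (l k).leak ((⟨(Pj.id S).vv s.Q, L⟩ : MSys S M (lin (g + 1)) (Fin 1)).cnd 0 (some i) k)) =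
          fun _ => 0 := by
        funext k
        have h3 : (⊥ : Setoid (S.F k).Ω) ⊓ Setoid.ker ((y0 S).cellv 0 k) = ⊥ := bot_inf_eq _
        show (l k).leak (fc ((⊥ : Setoid (S.F k).Ω) ⊓ Setoid.ker ((y0 S).cellv 0 k))) = 0
        rw [h3]
        exact leak_bot' (l k)
      show Nul S _
      rw [e]
      exact Nul_zero S
  · rcases i with _ | i
    · exact h none
    · exact i.elim0

/-! ### INV -/

theorem inv_UB {r : ℕ} {g : ℕ} (s : MSys S M (lin g) (Fin r)) (i : Fin r) (c : ℝ) {c' : ℝ} (hc : 0 ≤ c') :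
    UB (fun k => h (fc (Setoid.ker (s.Q.cellv c' k))) ((s.lf i).win c k) / (S.F k).n) := by
  refine ⟨M * c' + 1, ?_⟩
  filter_upwards [h_cell_le s.Q hc ((s.lf i).win c) 1 one_pos] with k hk
  have h1 : (0 : ℝ) ≤ h (fc (Setoid.ker (s.Q.cellv c' k))) ((s.lf i).win c k) / (S.F k).n :=
    div_nonneg (h_nonneg _ _) (S.F k).pos.le
  rw [abs_of_nonneg h1]
  exact hk

theorem inv_zero {r : ℕ} {g : ℕ} (s : MSys S M (lin g) (Fin r)) (hr : 0 < r) : Inv 0 s := by
  refine ⟨⟨⟨0, hr⟩⟩, fun i T p A hA c c' h0 h1 _ => ?_⟩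
  rw [Nat.cast_zero, zero_mul]
  refine le_of_tendsto_of_tendsto tendsto_const_nhds (ul_tendsto (inv_UB (s.im p A hA) i c (h0.trans h1)))
    (Eventually.of_forall fun k => div_nonneg (h_nonneg _ _) ((Sp.im p A).F k).pos.le)

theorem not_inv {r : ℕ} {g : ℕ} (s : MSys S M (lin g) (Fin r)) : ¬ Inv (M + 1) s := by
  rintro ⟨⟨i⟩, hi⟩
  have hA : 0 < ul (S.pr fun _ _ => True) := ul_pr_typ_pos _ Typ_true
  have h1 := hi i S (Pj.id S) (fun _ _ => True) hA 0 1 le_rfl zero_le_one le_rfl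
  set t := s.im (Pj.id S) (fun _ _ => True) hA
  have h2 : ul (fun k => h (fc (Setoid.ker (t.Q.cellv 1 k))) ((t.lf i).win 0 k) /
      ((Sp.im (Pj.id S) fun _ _ => True).F k).n) ≤ M + 1 / 2 := by
    refine ul_le_const (inv_UB t i 0 zero_le_one) ?_
    filter_upwards [h_cell_le t.Q zero_le_one ((t.lf i).win 0) (1 / 2) (by norm_num)] with k hk
    linarith
  rw [sub_zero, mul_one] at h1
  push_cast at h1
  linarith

/-! ### the assembly -/

/-- a number of unit directions -/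
theorem exists_v {A : MCl M} (hA : OkA M A) (h : ¬ STO M A) : ∃ v : ℕ, STO M (Cv A (v + 1)) ∧ ¬ STO M (Cv A v) := by
  have h0 : ¬ STO M (Cv A 0) := by
    intro h1
    apply h
    intro S g r s hs
    rcases Nat.eq_zero_or_pos r with hr | hr
    · obtain ⟨g', s', h2, h3, h4⟩ := exists_type hA hs hr
      rw [← h3, ← h4]
      exact h1 S g' 1 s' ⟨h2, inv_zero s' one_pos⟩
    · exact h1 S g r s ⟨hs, inv_zero s hr⟩
  have h1 : STO M (Cv A (M + 1)) := fun S g r s hs => absurd hs.2 (not_inv s)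
  by_contra hc
  push Not at hc
  have h2 : ∀ v : ℕ, v ≤ M + 1 → STO M (Cv A (M + 1 - v)) := by
    intro v
    induction v with
    | zero => exact fun _ => h1
    | succ v ih =>
      intro hv
      have h3 := ih (by omega)
      have e : M + 1 - v = (M + 1 - (v + 1)) + 1 := by omega
      rw [e] at h3
      exact hc _ h3
  have h3 := h2 (M + 1) le_rfl
  rw [Nat.sub_self] at h3
  exact h0 h3

/-- **MAX**: from the selection and the exit -/
theorem mx1 {M : ℕ} (hS : SELP M) (hE : EXITP M) (Cl Cl' : MCl (M + 1)) (ho : okM (M + 1) Cl Cl') : MX1 M Cl Cl' := by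
  intro hst hn
  obtain ⟨A, C, D, h1, h2, h3, h4⟩ := ho hst hn
  obtain ⟨v, hv, hv'⟩ := exists_v h1.oA h4
  obtain ⟨m, g, r, w, Y, hY⟩ := hS A C Cl' D h1 h2 h3 hst v hv hv'
  obtain ⟨g', r', ρ, TT, hT⟩ := hE (D w m) hst g r w Y hY
  exact ⟨g', r', w, ρ, TT, hT.cl_mono (h3.le w m)⟩

/-- **MAX** -/
theorem max_of {M : ℕ} (hS : SELP M) (hE : EXITP M) (Cl Cl' : MCl (M + 1)) : MAX okM M Cl Cl' := mx1 hS hE Cl Cl'

end

end Pool.Agent.Helper29.MX
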